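import Mathlib

/-!
# A quadratic inequality for orthogonal projections

For a symmetric idempotent real matrix `P` of trace `k` and a graph `A` on the index set,
`∑_{i ~ j} (P_ii + P_jj + 2 P_ij - 1) ≤ k ^ 2 + k + 2 T - T ^ 2`, `T = ∑ P_ii (1 - P_ii)`
(sum over ordered adjacent pairs).
-/

set_option autoImplicit false

open Finset

namespace Pool.Agent.Y339.SB

variable {V : Type*} [Fintype V] [DecidableEq V]

/-- the row multiplier -/
noncomputable def gam (p : ℝ) : ℝ := (1 + p) / (2 * (1 - p))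

/-- the pair function -/
noncomputable def En (p r q : ℝ) : ℝ :=
  p * r + (gam p + gam r) * q ^ 2 + 2 * (p * r * q) - p * (1 - p) * (r * (1 - r))

theorem pair_edge {p r q : ℝ} (hp0 : 0 ≤ p) (hp1 : p ≤ 1) (hr1 : r ≤ 1)
    (hp : p = 1 → q = 0) (hr : r = 1 → q = 0) :
    p + r + 2 * q - 1 ≤ En p r q := by
  unfold En gam
  rcases eq_or_lt_of_le hp1 with h | h
  · rw [hp h, h]; ring_nf; exact le_rfl
  rcases eq_or_lt_of_le hr1 with h' | h'
  · rw [hr h', h']; ring_nf; exact le_rfl
  have hx : 0 < 1 - p := by linarith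
  have hx' : 0 < 1 - r := by linarith
  have hg : (1 + p) / (2 * (1 - p)) + (1 + r) / (2 * (1 - r))
      = (1 - p * r) / ((1 - p) * (1 - r)) := by
    field_simp; ring
  rw [hg]
  have hpi : 0 < (1 - p) * (1 - r) := mul_pos hx hx'
  have hy : p * r ≤ 1 := by nlinarith
  have key : 0 ≤ (1 - p * r) * (q - (1 - p) * (1 - r)) ^ 2 / ((1 - p) * (1 - r)) := by
    apply div_nonneg _ hpi.le
    exact mul_nonneg (by linarith) (sq_nonneg _)
  have hid : (p * r + (1 - p * r) / ((1 - p) * (1 - r)) * q ^ 2 + 2 * (p * r * q)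
      - p * (1 - p) * (r * (1 - r))) - (p + r + 2 * q - 1)
      = (1 - p * r) * (q - (1 - p) * (1 - r)) ^ 2 / ((1 - p) * (1 - r)) := by
    have h1 : (1 - p) ≠ 0 := hx.ne'
    have h2 : (1 - r) ≠ 0 := hx'.ne'
    field_simp
    ring
  linarith

theorem pair_nonedge {p r q : ℝ} (hp0 : 0 ≤ p) (hp1 : p ≤ 1) (hr0 : 0 ≤ r) (hr1 : r ≤ 1)
    (hp : p = 1 → q = 0) (hr : r = 1 → q = 0) :
    0 ≤ En p r q := by
  unfold En gam
  rcases eq_or_lt_of_le hp1 with h | h
  · rw [hp h, h]; ring_nf; exact hr0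
  rcases eq_or_lt_of_le hr1 with h' | h'
  · rw [hr h', h']; ring_nf; exact hp0
  have hx : 0 < 1 - p := by linarith
  have hx' : 0 < 1 - r := by linarith
  have hg : (1 + p) / (2 * (1 - p)) + (1 + r) / (2 * (1 - r))
      = (1 - p * r) / ((1 - p) * (1 - r)) := by
    field_simp; ring
  rw [hg]
  have hpi : 0 < (1 - p) * (1 - r) := mul_pos hx hx'
  have hy : p * r ≤ 1 := by nlinarith
  have hy0 : 0 ≤ p * r := mul_nonneg hp0 hr0
  have hpi1 : (1 - p) * (1 - r) ≤ 1 := by nlinarith
  have hypi : p * r + (1 - p) * (1 - r) ≤ 1 := by nlinarith [mul_nonneg hp0 hx'.le, mul_nonneg hr0 hx.le]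
  have hid : (p * r + (1 - p * r) / ((1 - p) * (1 - r)) * q ^ 2 + 2 * (p * r * q)
      - p * (1 - p) * (r * (1 - r)))
      = ((1 - p * r) * q ^ 2 + 2 * (p * r) * ((1 - p) * (1 - r)) * q
        + (p * r) * ((1 - p) * (1 - r)) * (1 - (1 - p) * (1 - r))) / ((1 - p) * (1 - r)) := by
    have h1 : (1 - p) ≠ 0 := hx.ne'
    have h2 : (1 - r) ≠ 0 := hx'.ne'
    field_simp
    ring
  rw [hid]
  apply div_nonneg _ hpi.le
  -- quadratic in q with nonpositive discriminant
  set y := p * r with hydef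
  set w := (1 - p) * (1 - r) with hwdef
  rcases eq_or_lt_of_le hy with h1 | h1
  · -- y = 1 is impossible as p < 1
    exfalso
    nlinarith
  have hq : 0 ≤ (1 - y) * ((1 - y) * q ^ 2 + 2 * y * w * q + y * w * (1 - w)) := by
    have e1 : (1 - y) * ((1 - y) * q ^ 2 + 2 * y * w * q + y * w * (1 - w))
        = ((1 - y) * q + y * w) ^ 2 + y * w * (1 - y - w) := by ring
    rw [e1]
    have : 0 ≤ y * w * (1 - y - w) := mul_nonneg (mul_nonneg hy0 hpi.le) (by linarith)
    positivity
  exact nonneg_of_mul_nonneg_right hq (by linarith)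

section proj

variable {P : V → V → ℝ} (hs : ∀ i j, P i j = P j i) (hid : ∀ i j, ∑ l, P i l * P l j = P i j)

include hs hid

omit [DecidableEq V] in
theorem row_sq (i : V) : ∑ j, P i j ^ 2 = P i i := by
  rw [← hid i i]
  refine Finset.sum_congr rfl fun j _ => ?_
  rw [hs j i]; ring

omit [DecidableEq V] in
theorem diag_nonneg (i : V) : 0 ≤ P i i := by
  rw [← row_sq hs hid i]
  exact Finset.sum_nonneg fun j _ => sq_nonneg _

omit [DecidableEq V] in
theorem sq_le_diag (i : V) : P i i ^ 2 ≤ P i i := by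
  nth_rewrite 2 [← row_sq hs hid i]
  exact Finset.single_le_sum (f := fun j => P i j ^ 2) (fun j _ => sq_nonneg _) (Finset.mem_univ i)

omit [DecidableEq V] in
theorem diag_le_one (i : V) : P i i ≤ 1 := by
  have h := sq_le_diag hs hid i
  by_contra hc
  push Not at hc
  nlinarith

theorem row_sq_erase (i : V) : ∑ j ∈ univ.erase i, P i j ^ 2 = P i i * (1 - P i i) := by
  have h := row_sq hs hid i
  rw [← Finset.add_sum_erase _ _ (Finset.mem_univ i)] at h
  linarith [h, (by ring : P i i * (1 - P i i) = P i i - P i i ^ 2)]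

theorem off_zero {i j : V} (hij : i ≠ j) (h : P i i = 1) : P i j = 0 := by
  have h1 := row_sq_erase hs hid i
  rw [h, sub_self, mul_zero] at h1
  have h2 := (Finset.sum_eq_zero_iff_of_nonneg (fun j _ => sq_nonneg (P i j))).1 h1 j
    (Finset.mem_erase.2 ⟨hij.symm, Finset.mem_univ j⟩)
  exact pow_eq_zero_iff (two_ne_zero) |>.1 h2

omit [DecidableEq V] in
/-- `pᵀ P p ≤ |p|²` -/
theorem quad_le (e : V → ℝ) : ∑ i, ∑ j, e i * e j * P i j ≤ ∑ i, e i ^ 2 := by
  have h1 : ∑ i, (∑ j, P i j * e j) ^ 2 = ∑ i, ∑ j, e i * e j * P i j := by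
    have : ∀ l, (∑ j, P l j * e j) ^ 2 = ∑ i, ∑ j, e i * e j * (P i l * P l j) := by
      intro l
      rw [sq, Finset.sum_mul_sum]
      refine Finset.sum_congr rfl fun i _ => Finset.sum_congr rfl fun j _ => ?_
      rw [hs l i]; ring
    simp_rw [this]
    rw [Finset.sum_comm]
    refine Finset.sum_congr rfl fun i _ => ?_
    rw [Finset.sum_comm]
    refine Finset.sum_congr rfl fun j _ => ?_
    rw [← Finset.mul_sum, hid]
  have h2 : ∑ i, e i * (∑ j, P i j * e j) = ∑ i, ∑ j, e i * e j * P i j := by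
    refine Finset.sum_congr rfl fun i _ => ?_
    rw [Finset.mul_sum]
    refine Finset.sum_congr rfl fun j _ => ?_
    ring
  have h3 : 0 ≤ ∑ i, (e i - ∑ j, P i j * e j) ^ 2 := Finset.sum_nonneg fun i _ => sq_nonneg _
  have h4 : ∑ i, (e i - ∑ j, P i j * e j) ^ 2
      = ∑ i, e i ^ 2 - 2 * ∑ i, e i * (∑ j, P i j * e j) + ∑ i, (∑ j, P i j * e j) ^ 2 := by
    rw [Finset.mul_sum, ← Finset.sum_sub_distrib, ← Finset.sum_add_distrib]
    refine Finset.sum_congr rfl fun i _ => ?_
    ring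
  rw [h4, h1, h2] at h3
  linarith

/-- the total of the pair function -/
theorem total_En :
    ∑ i, ∑ j ∈ univ.erase i, En (P i i) (P j j) (P i j)
      ≤ (∑ i, P i i) ^ 2 + ∑ i, P i i + 2 * ∑ i, P i i * (1 - P i i)
        - (∑ i, P i i * (1 - P i i)) ^ 2 := by
  set p : V → ℝ := fun i => P i i with hp
  have hp0 : ∀ i, 0 ≤ p i := fun i => diag_nonneg (P := P) hs hid i
  have hp1 : ∀ i, p i ≤ 1 := fun i => diag_le_one (P := P) hs hid i
  -- split the four contributions
  have split : ∀ i, ∑ j ∈ univ.erase i, En (p i) (p j) (P i j)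
      = (∑ j, (p i * p j + 2 * (p i * p j * P i j) - p i * (1 - p i) * (p j * (1 - p j))))
        - (p i * p i + 2 * (p i * p i * P i i) - p i * (1 - p i) * (p i * (1 - p i)))
        + ∑ j ∈ univ.erase i, (gam (p i) + gam (p j)) * P i j ^ 2 := by
    intro i
    rw [← Finset.add_sum_erase _ _ (Finset.mem_univ i), add_sub_cancel_left,
      ← Finset.sum_add_distrib]
    refine Finset.sum_congr rfl fun j _ => ?_
    unfold En
    ring
  have hgam : ∑ i, ∑ j ∈ univ.erase i, (gam (p i) + gam (p j)) * P i j ^ 2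
      ≤ ∑ i, p i * (1 + p i) := by
    have h1 : ∑ i, ∑ j ∈ univ.erase i, gam (p j) * P i j ^ 2
        = ∑ i, ∑ j ∈ univ.erase i, gam (p i) * P i j ^ 2 := by
      have e1 : ∀ f : V → V → ℝ, ∑ i, ∑ j ∈ univ.erase i, f i j
          = ∑ i, ∑ j, if i = j then 0 else f i j := by
        intro f
        refine Finset.sum_congr rfl fun i _ => ?_
        rw [← Finset.add_sum_erase (univ : Finset V) _ (Finset.mem_univ i), if_pos rfl, zero_add]
        refine Finset.sum_congr rfl fun j hj => ?_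
        rw [if_neg (Finset.ne_of_mem_erase hj).symm]
      rw [e1, e1, Finset.sum_comm]
      refine Finset.sum_congr rfl fun i _ => Finset.sum_congr rfl fun j _ => ?_
      rw [hs j i]
      by_cases h : i = j
      · rw [if_pos h, if_pos h.symm]
      · rw [if_neg h, if_neg (Ne.symm h)]
    have h2 : ∑ i, ∑ j ∈ univ.erase i, (gam (p i) + gam (p j)) * P i j ^ 2
        = ∑ i, 2 * (gam (p i) * (p i * (1 - p i))) := by
      have h3 : ∑ i, ∑ j ∈ univ.erase i, (gam (p i) + gam (p j)) * P i j ^ 2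
          = ∑ i, ∑ j ∈ univ.erase i, gam (p i) * P i j ^ 2
            + ∑ i, ∑ j ∈ univ.erase i, gam (p j) * P i j ^ 2 := by
        rw [← Finset.sum_add_distrib]
        refine Finset.sum_congr rfl fun i _ => ?_
        rw [← Finset.sum_add_distrib]
        refine Finset.sum_congr rfl fun j _ => ?_
        ring
      rw [h3, h1, ← Finset.sum_add_distrib]
      refine Finset.sum_congr rfl fun i _ => ?_
      rw [← Finset.mul_sum, row_sq_erase hs hid i]
      ring
    rw [h2]
    refine Finset.sum_le_sum fun i _ => ?_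
    unfold gam
    rcases eq_or_lt_of_le (hp1 i) with h | h
    · rw [h]; norm_num
    · have hx : (1 - p i) ≠ 0 := by linarith
      apply le_of_eq
      field_simp
  have hquad := quad_le hs hid p
  have hq2 : ∑ i, ∑ j, p i * p j = (∑ i, p i) ^ 2 := by
    rw [sq, Finset.sum_mul_sum]
  have hq3 : ∑ i, ∑ j, p i * (1 - p i) * (p j * (1 - p j)) = (∑ i, p i * (1 - p i)) ^ 2 := by
    rw [sq, Finset.sum_mul_sum]
  have hsplit : ∑ i, ∑ j ∈ univ.erase i, En (p i) (p j) (P i j)
      = ∑ i, ∑ j, p i * p j + 2 * ∑ i, ∑ j, p i * p j * P i j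
        - ∑ i, ∑ j, p i * (1 - p i) * (p j * (1 - p j))
        - ∑ i, (p i * p i + 2 * (p i * p i * p i) - p i * (1 - p i) * (p i * (1 - p i)))
        + ∑ i, ∑ j ∈ univ.erase i, (gam (p i) + gam (p j)) * P i j ^ 2 := by
    simp_rw [split]
    rw [Finset.sum_add_distrib, Finset.sum_sub_distrib, Finset.mul_sum]
    congr 1
    congr 1
    rw [← Finset.sum_add_distrib, ← Finset.sum_sub_distrib]
    refine Finset.sum_congr rfl fun i _ => ?_
    rw [Finset.mul_sum, ← Finset.sum_add_distrib, ← Finset.sum_sub_distrib]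
  have hfin : ∑ i, p i * (1 + p i) + 2 * ∑ i, p i ^ 2
      - ∑ i, (p i * p i + 2 * (p i * p i * p i) - p i * (1 - p i) * (p i * (1 - p i)))
      ≤ ∑ i, p i + 2 * ∑ i, p i * (1 - p i) := by
    rw [Finset.mul_sum, Finset.mul_sum, ← Finset.sum_add_distrib, ← Finset.sum_sub_distrib,
      ← Finset.sum_add_distrib]
    refine Finset.sum_le_sum fun i _ => ?_
    have h0 := hp0 i
    have h1 := hp1 i
    have e : (p i + 2 * (p i * (1 - p i))) - (p i * (1 + p i) + 2 * p i ^ 2
        - (p i * p i + 2 * (p i * p i * p i) - p i * (1 - p i) * (p i * (1 - p i))))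
        = p i * (1 - p i) * ((1 - p i) * (2 - p i)) := by ring
    have : 0 ≤ p i * (1 - p i) * ((1 - p i) * (2 - p i)) := by
      apply mul_nonneg (mul_nonneg h0 (by linarith))
      apply mul_nonneg <;> linarith
    linarith
  change ∑ i, ∑ j ∈ univ.erase i, En (p i) (p j) (P i j) ≤
    (∑ i, p i) ^ 2 + ∑ i, p i + 2 * ∑ i, p i * (1 - p i) - (∑ i, p i * (1 - p i)) ^ 2
  rw [hsplit, hq2, hq3]
  linarith

/-- **Core inequality.** -/
theorem core (A : V → V → Prop) [DecidableRel A] (hirr : ∀ i, ¬ A i i) :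
    ∑ i, ∑ j, (if A i j then P i i + P j j + 2 * P i j - 1 else 0)
      ≤ (∑ i, P i i) ^ 2 + ∑ i, P i i + 2 * ∑ i, P i i * (1 - P i i)
        - (∑ i, P i i * (1 - P i i)) ^ 2 := by
  refine le_trans ?_ (total_En hs hid)
  refine Finset.sum_le_sum fun i _ => ?_
  rw [← Finset.add_sum_erase (univ : Finset V) _ (Finset.mem_univ i), if_neg (hirr i), zero_add]
  refine Finset.sum_le_sum fun j hj => ?_
  have hij : i ≠ j := (Finset.ne_of_mem_erase hj).symm
  have h1 : P i i = 1 → P i j = 0 := fun h => off_zero hs hid hij h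
  have h2 : P j j = 1 → P i j = 0 := fun h => by rw [hs i j]; exact off_zero hs hid hij.symm h
  split_ifs
  · exact pair_edge (diag_nonneg hs hid i) (diag_le_one hs hid i)
      (diag_le_one hs hid j) h1 h2
  · exact pair_nonedge (diag_nonneg hs hid i) (diag_le_one hs hid i) (diag_nonneg hs hid j)
      (diag_le_one hs hid j) h1 h2

end proj

end Pool.Agent.Y339.SB
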