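import Pool.Agent.Y339.SB.Core

/-!
# From eigenvalue sums to projections
-/

set_option autoImplicit false

open Finset

namespace Pool.Agent.Y339.SB

variable {V : Type*} [Fintype V] [DecidableEq V]

/-- the orthogonal projection onto the span of the chosen eigenvectors -/
noncomputable def proj {M : Matrix V V ℝ} (hM : M.IsHermitian) (s : Finset V) (i j : V) : ℝ :=
  ∑ a ∈ s, hM.eigenvectorBasis a i * hM.eigenvectorBasis a j

variable {M : Matrix V V ℝ} (hM : M.IsHermitian) (s : Finset V)

theorem proj_symm (i j : V) : proj hM s i j = proj hM s j i := by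
  unfold proj
  exact Finset.sum_congr rfl fun a _ => mul_comm _ _

theorem basis_orth (a b : V) :
    ∑ l, hM.eigenvectorBasis a l * hM.eigenvectorBasis b l = if a = b then 1 else 0 := by
  have h := (orthonormal_iff_ite.1 hM.eigenvectorBasis.orthonormal) a b
  rw [← h, PiLp.inner_apply]
  refine Finset.sum_congr rfl fun l _ => ?_
  simp [mul_comm]

theorem proj_idem (i j : V) : ∑ l, proj hM s i l * proj hM s l j = proj hM s i j := by
  unfold proj
  have h1 : ∀ l, (∑ a ∈ s, hM.eigenvectorBasis a i * hM.eigenvectorBasis a l)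
      * (∑ b ∈ s, hM.eigenvectorBasis b l * hM.eigenvectorBasis b j)
      = ∑ a ∈ s, ∑ b ∈ s, hM.eigenvectorBasis a i * hM.eigenvectorBasis b j *
        (hM.eigenvectorBasis a l * hM.eigenvectorBasis b l) := by
    intro l
    rw [Finset.sum_mul_sum]
    refine Finset.sum_congr rfl fun a _ => Finset.sum_congr rfl fun b _ => ?_
    ring
  simp_rw [h1]
  rw [Finset.sum_comm]
  refine Finset.sum_congr rfl fun a ha => ?_
  rw [Finset.sum_comm]
  have h2 : ∀ b ∈ s, ∑ l, hM.eigenvectorBasis a i * hM.eigenvectorBasis b j *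
        (hM.eigenvectorBasis a l * hM.eigenvectorBasis b l)
      = if a = b then hM.eigenvectorBasis a i * hM.eigenvectorBasis a j else 0 := by
    intro b _
    rw [← Finset.mul_sum, basis_orth hM a b]
    by_cases h : a = b
    · subst h; simp
    · simp [h]
  rw [Finset.sum_congr rfl h2, Finset.sum_ite_eq, if_pos ha]

theorem proj_trace : ∑ i, proj hM s i i = (s.card : ℝ) := by
  unfold proj
  rw [Finset.sum_comm]
  have h : ∀ a ∈ s, ∑ i, hM.eigenvectorBasis a i * hM.eigenvectorBasis a i = 1 := by
    intro a _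
    rw [basis_orth hM a a, if_pos rfl]
  rw [Finset.sum_congr rfl h]
  simp

theorem eig_eq (a : V) :
    hM.eigenvalues a = ∑ i, ∑ j, M i j * (hM.eigenvectorBasis a i * hM.eigenvectorBasis a j) := by
  have h := hM.mulVec_eigenvectorBasis a
  have h2 : ∀ i, ∑ j, M i j * hM.eigenvectorBasis a j
      = hM.eigenvalues a * hM.eigenvectorBasis a i := by
    intro i
    have h3 := congrFun h i
    simpa [Matrix.mulVec, dotProduct] using h3
  have h4 : ∑ i, ∑ j, M i j * (hM.eigenvectorBasis a i * hM.eigenvectorBasis a j)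
      = ∑ i, hM.eigenvalues a * (hM.eigenvectorBasis a i * hM.eigenvectorBasis a i) := by
    refine Finset.sum_congr rfl fun i _ => ?_
    have : ∑ j, M i j * (hM.eigenvectorBasis a i * hM.eigenvectorBasis a j)
        = hM.eigenvectorBasis a i * ∑ j, M i j * hM.eigenvectorBasis a j := by
      rw [Finset.mul_sum]
      refine Finset.sum_congr rfl fun j _ => ?_
      ring
    rw [this, h2 i]
    ring
  rw [h4, ← Finset.mul_sum, basis_orth hM a a, if_pos rfl, mul_one]

theorem sum_eig : ∑ a ∈ s, hM.eigenvalues a = ∑ i, ∑ j, M i j * proj hM s i j := by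
  unfold proj
  simp_rw [eig_eq hM, Finset.mul_sum]
  rw [Finset.sum_comm]
  refine Finset.sum_congr rfl fun i _ => ?_
  rw [Finset.sum_comm]

/-- twice the sum of signless Laplacian eigenvalues, as a sum over ordered adjacent pairs -/
theorem two_sum_eig (G : SimpleGraph V) [DecidableRel G.Adj]
    (hQ : (G.degMatrix ℝ + G.adjMatrix ℝ).IsHermitian) (s : Finset V) :
    2 * ∑ a ∈ s, hQ.eigenvalues a = 2 * (G.edgeFinset.card : ℝ) +
      ∑ i, ∑ j, (if G.Adj i j then proj hQ s i i + proj hQ s j j + 2 * proj hQ s i j - 1 else 0) := by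
  have h1 : ∑ i, ∑ j, (if G.Adj i j then (1 : ℝ) else 0) = 2 * (G.edgeFinset.card : ℝ) := by
    have h := G.sum_degrees_eq_twice_card_edges
    have h' : ∑ v, (G.degree v : ℝ) = 2 * (G.edgeFinset.card : ℝ) := by exact_mod_cast h
    rw [← h']
    refine Finset.sum_congr rfl fun i _ => ?_
    rw [← SimpleGraph.card_neighborFinset_eq_degree, SimpleGraph.neighborFinset_eq_filter,
      Finset.card_filter]
    push_cast
    rfl
  have hdeg : ∀ i, (G.degree i : ℝ) = ∑ j, (if G.Adj i j then (1 : ℝ) else 0) := by
    intro i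
    rw [← SimpleGraph.card_neighborFinset_eq_degree, SimpleGraph.neighborFinset_eq_filter,
      Finset.card_filter]
    push_cast
    rfl
  have h2 : ∑ a ∈ s, hQ.eigenvalues a
      = ∑ i, ∑ j, (if G.Adj i j then proj hQ s i i + proj hQ s i j else 0) := by
    rw [sum_eig hQ s]
    refine Finset.sum_congr rfl fun i _ => ?_
    have e1 : ∀ j, (G.degMatrix ℝ + G.adjMatrix ℝ) i j * proj hQ s i j
        = (if i = j then (G.degree i : ℝ) * proj hQ s i i else 0)
          + (if G.Adj i j then proj hQ s i j else 0) := by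
      intro j
      rw [Matrix.add_apply, add_mul]
      congr 1
      · unfold SimpleGraph.degMatrix
        rw [Matrix.diagonal_apply]
        split_ifs with h
        · rw [← h]
        · simp
      · rw [SimpleGraph.adjMatrix_apply]
        split_ifs <;> simp
    rw [Finset.sum_congr rfl fun j _ => e1 j, Finset.sum_add_distrib, Finset.sum_ite_eq,
      if_pos (Finset.mem_univ i), hdeg i, Finset.sum_mul, ← Finset.sum_add_distrib]
    refine Finset.sum_congr rfl fun j _ => ?_
    split_ifs <;> ring
  have h3 : ∑ i, ∑ j, (if G.Adj i j then proj hQ s i i + proj hQ s i j else 0)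
      = ∑ i, ∑ j, (if G.Adj i j then proj hQ s j j + proj hQ s i j else 0) := by
    rw [Finset.sum_comm]
    refine Finset.sum_congr rfl fun i _ => Finset.sum_congr rfl fun j _ => ?_
    by_cases h : G.Adj i j
    · rw [if_pos h, if_pos h.symm, proj_symm hQ s j i]
    · rw [if_neg h, if_neg (fun h' => h h'.symm)]
  have h4 : 2 * ∑ a ∈ s, hQ.eigenvalues a
      = ∑ i, ∑ j, (if G.Adj i j then proj hQ s i i + proj hQ s i j else 0)
        + ∑ i, ∑ j, (if G.Adj i j then proj hQ s j j + proj hQ s i j else 0) := by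
    rw [← h3, ← h2]; ring
  rw [h4, ← h1, ← Finset.sum_add_distrib, ← Finset.sum_add_distrib]
  refine Finset.sum_congr rfl fun i _ => ?_
  rw [← Finset.sum_add_distrib, ← Finset.sum_add_distrib]
  refine Finset.sum_congr rfl fun j _ => ?_
  split_ifs <;> ring

end Pool.Agent.Y339.SB
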